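import Pool.Agent.T6.H71.Roth.Line

/-!
# The concrete line

The points are the sequences `t⌢⊤` and `t⌢⊥`, where `t` is a finite modification (with integer
values) of the function `e · α` on the ordinals below `α`, in the lexicographic order.
-/

set_option autoImplicit false

namespace Pool.Agent.T6.H71.Roth

open Set Topology

variable {W : Type} [LinearOrder W] [OrderBot W] [WellFoundedLT W] [Om W]

/-- integers with a least and a largest element -/
abbrev BB : Type := WithBot (WithTop ℤ)

/-- an integer as an element of `BB` -/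
def ii (k : ℤ) : BB := ((k : WithTop ℤ) : WithBot (WithTop ℤ))

/-- `x` is a point of length `α` -/
def IsPt (x : W → BB) (α : W) : Prop :=
  (∀ ξ, ξ < α → ∃ k : ℤ, x ξ = ii k) ∧ (x α = ⊥ ∨ x α = ⊤) ∧ (∀ ξ, α < ξ → x ξ = ⊥) ∧
    {ξ | ξ < α ∧ x ξ ≠ ii (e ξ α)}.Finite

variable (W) in
/-- the line -/
def LL : Type := {x : Lex (W → BB) // ∃ α, IsPt (ofLex x) α}

noncomputable instance : LinearOrder (LL W) := by unfold LL; infer_instance

/-- underlying function -/
def fn (x : LL W) : W → BB := ofLex x.1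

/-- length -/
noncomputable def len (x : LL W) : W := Classical.choose x.2

theorem pt (x : LL W) : IsPt (fn x) (len x) := Classical.choose_spec x.2

theorem ext' {x y : LL W} (h : fn x = fn y) : x = y := Subtype.ext h

theorem lt_iff {x y : LL W} : x < y ↔ ∃ ξ, (∀ η, η < ξ → fn x η = fn y η) ∧ fn x ξ < fn y ξ :=
  Iff.rfl

theorem ii_ne_bot (k : ℤ) : ii k ≠ ⊥ := WithBot.coe_ne_bot

theorem ii_ne_top (k : ℤ) : ii k ≠ ⊤ := by
  intro h
  have h1 : ((k : WithTop ℤ) : WithBot (WithTop ℤ)) = ((⊤ : WithTop ℤ) : WithBot (WithTop ℤ)) := h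
  exact WithTop.coe_ne_top (WithBot.coe_injective h1)

theorem ii_inj {k l : ℤ} (h : ii k = ii l) : k = l := by
  have h1 : ((k : WithTop ℤ) : WithBot (WithTop ℤ)) = ((l : WithTop ℤ) : WithBot (WithTop ℤ)) := h
  exact WithTop.coe_injective (WithBot.coe_injective h1)

/-- `α` is the length: it is the first place where the value is not an integer -/
theorem isPt_unique {x : W → BB} {α β : W} (h : IsPt x α) (h' : IsPt x β) : α = β := by
  rcases lt_trichotomy α β with hlt | rfl | hlt
  · obtain ⟨k, hk⟩ := h'.1 α hlt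
    rcases h.2.1 with h1 | h1 <;> rw [h1] at hk
    · exact absurd hk.symm (ii_ne_bot k)
    · exact absurd hk.symm (ii_ne_top k)
  · rfl
  · obtain ⟨k, hk⟩ := h.1 β hlt
    rcases h'.2.1 with h1 | h1 <;> rw [h1] at hk
    · exact absurd hk.symm (ii_ne_bot k)
    · exact absurd hk.symm (ii_ne_top k)

/-- construct a point -/
def mkP (x : W → BB) (α : W) (h : IsPt x α) : LL W := ⟨toLex x, α, h⟩

theorem fn_mkP (x : W → BB) (α : W) (h : IsPt x α) : fn (mkP x α h) = x := rfl

/-- points of length below `δ` are determined by the restriction to `δ` -/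
theorem eq_of_agr {x y : LL W} {δ : W} (hx : len x < δ) (h : Agr fn δ x y) : y = x := by
  have h1 : len y = len x := by
    rcases lt_trichotomy (len y) (len x) with hlt | h1 | hlt
    · exfalso
      obtain ⟨k, hk⟩ := (pt x).1 (len y) hlt
      rw [h (len y) (hlt.trans hx)] at hk
      rcases (pt y).2.1 with h1 | h1 <;> rw [h1] at hk
      · exact absurd hk.symm (ii_ne_bot k)
      · exact absurd hk.symm (ii_ne_top k)
    · exact h1
    · exfalso
      obtain ⟨k, hk⟩ := (pt y).1 (len x) hlt
      rw [← h (len x) hx] at hk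
      rcases (pt x).2.1 with h1 | h1 <;> rw [h1] at hk
      · exact absurd hk.symm (ii_ne_bot k)
      · exact absurd hk.symm (ii_ne_top k)
  apply ext'
  funext η
  by_cases hη : η < δ
  · exact (h η hη).symm
  · have h2 : len x < η := hx.trans_le (not_lt.1 hη)
    rw [(pt x).2.2.1 η h2, (pt y).2.2.1 η (by rw [h1]; exact h2)]

/-- cut off at `δ` and put the value `v` (`⊤` or `⊥`) at `δ` -/
noncomputable def cutf (x : LL W) (δ : W) (v : BB) : W → BB := by
  classical
  exact fun ξ => if ξ < δ then fn x ξ else if ξ = δ then v else ⊥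

theorem cutf_lt {x : LL W} {δ : W} {v : BB} {ξ : W} (h : ξ < δ) : cutf x δ v ξ = fn x ξ := by
  unfold cutf
  rw [if_pos h]

theorem cutf_self {x : LL W} {δ : W} {v : BB} : cutf x δ v δ = v := by
  unfold cutf
  rw [if_neg (lt_irrefl δ), if_pos rfl]

theorem cutf_gt {x : LL W} {δ : W} {v : BB} {ξ : W} (h : δ < ξ) : cutf x δ v ξ = ⊥ := by
  unfold cutf
  rw [if_neg (not_lt.2 h.le), if_neg h.ne']

theorem isPt_cut (x : LL W) {δ : W} (hδ : δ ≤ len x) (v : BB) (hv : v = ⊥ ∨ v = ⊤) :
    IsPt (cutf x δ v) δ := by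
  refine ⟨fun ξ hξ => ?_, ?_, fun ξ hξ => cutf_gt hξ, ?_⟩
  · obtain ⟨k, hk⟩ := (pt x).1 ξ (hξ.trans_le hδ)
    exact ⟨k, by rw [cutf_lt hξ, hk]⟩
  · rw [cutf_self]
    exact hv
  · refine ((pt x).2.2.2.union (E2 (len x) δ hδ)).subset ?_
    rintro ξ ⟨h1, h2⟩
    rw [cutf_lt h1] at h2
    by_cases h3 : e ξ δ = e ξ (len x)
    · left
      refine ⟨h1.trans_le hδ, ?_⟩
      rw [← h3]
      exact h2
    · right
      exact ⟨h1, h3⟩

/-- functions which differ from `g` only at finitely many points of `C` -/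
theorem countable_mod (g : W → BB) (C : Set W) (hC : C.Countable) :
    {h : W → BB | {ξ | h ξ ≠ g ξ}.Finite ∧ {ξ | h ξ ≠ g ξ} ⊆ C}.Countable := by
  classical
  have h1 : {t : Set W | t.Finite ∧ t ⊆ C}.Countable := Set.countable_ofPred_finite_subset hC
  have h2 : ∀ t : Set W, t.Finite → {h : W → BB | ∀ ξ, ξ ∉ t → h ξ = g ξ}.Countable := by
    intro t ht
    have : Finite t := ht
    have hc : Countable (t → BB) := inferInstance
    refine (Set.countable_range (fun u : t → BB =>
      fun ξ => if hξ : ξ ∈ t then u ⟨ξ, hξ⟩ else g ξ)).mono ?_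
    intro h hh
    refine ⟨fun ξ => h ξ.1, ?_⟩
    funext ξ
    by_cases hξ : ξ ∈ t
    · simp [hξ]
    · simp only [hξ, dif_neg, not_false_eq_true]
      exact (hh ξ hξ).symm
  refine (h1.biUnion (t := fun t _ => {h : W → BB | ∀ ξ, ξ ∉ t → h ξ = g ξ})
    fun t ht => h2 t ht.1).mono ?_
  rintro h ⟨hf, hs⟩
  refine Set.mem_iUnion₂.2 ⟨_, ⟨hf, hs⟩, fun ξ hξ => ?_⟩
  by_contra hne
  exact hξ hne

/-- countably many restrictions -/
theorem countable_restr (δ : W) :
    {h : W → BB | ∃ x : LL W, h = fun ξ => if ξ < δ then fn x ξ else ⊥}.Countable := by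
  classical
  have hC : (Iic δ).Countable := by
    rw [← Set.Iio_insert]
    exact (Om.countable_Iio δ).insert δ
  refine (hC.biUnion (t := fun α _ => {h : W → BB |
    {ξ | h ξ ≠ (if ξ < α then ii (e ξ α) else ⊥)}.Finite ∧
    {ξ | h ξ ≠ (if ξ < α then ii (e ξ α) else ⊥)} ⊆ Iic δ}) fun α _ =>
      countable_mod _ _ hC).mono ?_
  rintro _ ⟨x, rfl⟩
  rw [Set.mem_iUnion₂]
  rcases lt_or_ge (len x) δ with hlt | hge
  · refine ⟨len x, hlt.le, ?_, ?_⟩
    · refine ((pt x).2.2.2.union (Set.finite_singleton (len x))).subset ?_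
      intro ξ hξ
      rcases lt_trichotomy ξ (len x) with h1 | h1 | h1
      · left
        refine ⟨h1, ?_⟩
        intro h2
        apply hξ
        show (if ξ < δ then fn x ξ else ⊥) = _
        rw [if_pos (h1.trans hlt), if_pos h1, h2]
      · right; exact h1
      · exfalso
        apply hξ
        show (if ξ < δ then fn x ξ else ⊥) = _
        rw [if_neg (not_lt.2 h1.le), (pt x).2.2.1 ξ h1, ite_self]
    · intro ξ hξ
      by_contra hcon
      have hcon' : δ < ξ := not_le.1 hcon
      apply hξ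
      show (if ξ < δ then fn x ξ else ⊥) = _
      rw [if_neg (not_lt.2 hcon'.le), if_neg (not_lt.2 (hlt.trans hcon').le)]
  · refine ⟨δ, le_refl δ, ?_, ?_⟩
    · refine ((pt x).2.2.2.union (E2 (len x) δ hge)).subset ?_
      intro ξ hξ
      have h1 : ξ < δ := by
        by_contra hcon
        apply hξ
        show (if ξ < δ then fn x ξ else ⊥) = _
        rw [if_neg hcon, if_neg hcon]
      have h2 : ¬ fn x ξ = ii (e ξ δ) := by
        intro h2
        apply hξ
        show (if ξ < δ then fn x ξ else ⊥) = _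
        rw [if_pos h1, if_pos h1, h2]
      by_cases h3 : e ξ δ = e ξ (len x)
      · left
        refine ⟨h1.trans_le hge, ?_⟩
        rw [← h3]
        exact h2
      · right
        exact ⟨h1, h3⟩
    · intro ξ hξ
      by_contra hcon
      have hcon' : ¬ ξ < δ := fun h => hcon h.le
      apply hξ
      show (if ξ < δ then fn x ξ else ⊥) = _
      rw [if_neg hcon', if_neg hcon']

theorem not_countable_univ : ¬ (Set.univ : Set W).Countable := by
  intro h
  obtain ⟨b, hb⟩ := Om.bdd _ h
  exact lt_irrefl b (hb b trivial)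

/-- the concrete line has the properties above -/
theorem lexLine : LexLine (fn : LL W → W → BB) where
  lex x y := lt_iff
  cnt δ := by
    classical
    have h := countable_restr δ
    choose r hr using fun h : {h : W → BB | ∃ x : LL W, h = fun ξ => if ξ < δ then fn x ξ else ⊥} =>
      h.2
    have hc : Countable {h : W → BB | ∃ x : LL W, h = fun ξ => if ξ < δ then fn x ξ else ⊥} :=
      h.to_subtype
    refine ⟨range r, countable_range r, fun x => ?_⟩
    refine ⟨r ⟨_, x, rfl⟩, ⟨_, rfl⟩, fun η hη => ?_⟩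
    have h1 := congrFun (hr ⟨_, x, rfl⟩) η
    simp only [if_pos hη] at h1
    exact h1.symm
  top δ x := by
    classical
    rcases lt_or_ge (len x) δ with hlt | hge
    · exact ⟨x, fun _ _ => rfl, fun y hy => (eq_of_agr hlt hy).le⟩
    · refine ⟨mkP _ δ (isPt_cut x hge ⊤ (Or.inr rfl)), fun η hη => ?_, fun y hy => ?_⟩
      · rw [fn_mkP, cutf_lt hη]
      · by_contra hcon
        obtain ⟨ξ, h1, h2⟩ := lt_iff.1 (not_le.1 hcon)
        rw [fn_mkP] at h1 h2
        rcases lt_trichotomy ξ δ with h3 | h3 | h3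
        · rw [cutf_lt h3, hy ξ h3] at h2
          exact lt_irrefl _ h2
        · rw [h3, cutf_self] at h2
          exact not_top_lt h2
        · have h4 := h1 δ h3
          rw [cutf_self] at h4
          have h5 : len y = δ := by
            rcases lt_trichotomy (len y) δ with h6 | h6 | h6
            · exfalso
              obtain ⟨k, hk⟩ := (pt x).1 (len y) (h6.trans_le hge)
              rw [hy _ h6] at hk
              rcases (pt y).2.1 with h7 | h7 <;> rw [h7] at hk
              · exact absurd hk.symm (ii_ne_bot k)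
              · exact absurd hk.symm (ii_ne_top k)
            · exact h6
            · exfalso
              obtain ⟨k, hk⟩ := (pt y).1 δ h6
              rw [← h4] at hk
              exact absurd hk.symm (ii_ne_top k)
          rw [(pt y).2.2.1 ξ (h5 ▸ h3)] at h2
          exact not_lt_bot h2
  bot δ x := by
    classical
    rcases lt_or_ge (len x) δ with hlt | hge
    · exact ⟨x, fun _ _ => rfl, fun y hy => (eq_of_agr hlt hy).ge⟩
    · refine ⟨mkP _ δ (isPt_cut x hge ⊥ (Or.inl rfl)), fun η hη => ?_, fun y hy => ?_⟩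
      · rw [fn_mkP, cutf_lt hη]
      · by_contra hcon
        obtain ⟨ξ, h1, h2⟩ := lt_iff.1 (not_le.1 hcon)
        rw [fn_mkP] at h1 h2
        rcases lt_trichotomy ξ δ with h3 | h3 | h3
        · rw [cutf_lt h3, hy ξ h3] at h2
          exact lt_irrefl _ h2
        · rw [h3, cutf_self] at h2
          exact not_lt_bot h2
        · rw [cutf_gt h3] at h2
          exact not_lt_bot h2
  single x := by
    obtain ⟨δ, hδ⟩ := exists_gt (len x)
    exact ⟨δ, fun y hy => eq_of_agr hδ hy⟩
  nobranch F := by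
    classical
    by_contra hcon
    push Not at hcon
    have h1 : ∀ δ, (∀ ξ, ξ < δ → ∃ k : ℤ, F ξ = ii k) ∧ {ξ | ξ < δ ∧ F ξ ≠ ii (e ξ δ)}.Finite := by
      intro δ
      obtain ⟨x, hx, y, hy, hne⟩ := hcon δ
      have hge : δ ≤ len x := by
        by_contra hlt
        exact hne (eq_of_agr (not_le.1 hlt) hy)
      refine ⟨fun ξ hξ => ?_, ?_⟩
      · obtain ⟨k, hk⟩ := (pt x).1 ξ (hξ.trans_le hge)
        exact ⟨k, by rw [← hx ξ hξ, hk]⟩
      · refine ((pt x).2.2.2.union (E2 (len x) δ hge)).subset ?_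
        rintro ξ ⟨h1, h2⟩
        rw [← hx ξ h1] at h2
        by_cases h3 : e ξ δ = e ξ (len x)
        · left
          refine ⟨h1.trans_le hge, ?_⟩
          rw [← h3]
          exact h2
        · right
          exact ⟨h1, h3⟩
    have h2 : ∃ k : ℤ, ¬ {ξ | F ξ = ii k}.Countable := by
      by_contra hcon
      push Not at hcon
      apply not_countable_univ (W := W)
      refine (Set.countable_iUnion hcon).mono ?_
      intro ξ _
      obtain ⟨δ, hδ⟩ := exists_gt ξ
      obtain ⟨k, hk⟩ := (h1 δ).1 ξ hδ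
      exact Set.mem_iUnion.2 ⟨k, hk⟩
    obtain ⟨k, hk⟩ := h2
    have hinf : {ξ | F ξ = ii k}.Infinite := fun hfin => hk hfin.countable
    let u := hinf.natEmbedding
    obtain ⟨δ, hδ⟩ := exists_bound fun n => ((u n : {ξ | F ξ = ii k}) : W)
    have h3 : {ξ | ξ < δ ∧ F ξ = ii k}.Infinite := by
      refine Set.infinite_of_injective_forall_mem (f := fun n => ((u n : {ξ | F ξ = ii k}) : W))
        (fun a b hab => u.injective (Subtype.ext hab)) fun n => ⟨hδ n, (u n).2⟩
    apply h3
    refine ((h1 δ).2.union (E1 k.toNat δ)).subset ?_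
    rintro ξ ⟨h4, h5⟩
    by_cases h6 : F ξ = ii (e ξ δ)
    · right
      refine ⟨h4, ?_⟩
      have h7 : (k : ℤ) = e ξ δ := ii_inj (h5.symm.trans h6)
      omega
    · left
      exact ⟨h4, h6⟩

end Pool.Agent.T6.H71.Roth
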