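import Mathlib

/-!
# Rothberger and `ω`-Rothberger spaces: definitions
-/

set_option autoImplicit false

namespace Pool.Agent.T6.H71.Roth

open Set

/-- `𝒰` is an open cover of `X`: a family of open sets with union `X`. -/
def IsOpenCover (X : Type) [TopologicalSpace X] (𝒰 : Set (Set X)) : Prop :=
  (∀ U ∈ 𝒰, IsOpen U) ∧ ⋃₀ 𝒰 = univ

/-- `𝒰` is an `ω`-cover of `X`: an open cover of which `X` is not a member, such that every finite
subset of `X` is contained in a member. -/
def IsOmegaCover (X : Type) [TopologicalSpace X] (𝒰 : Set (Set X)) : Prop :=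
  IsOpenCover X 𝒰 ∧ univ ∉ 𝒰 ∧ ∀ F : Set X, F.Finite → ∃ U ∈ 𝒰, F ⊆ U

/-- `X` is Rothberger, `S₁(O, O)`: for every sequence of open covers one can choose one member of
each such that the chosen sets cover `X`. -/
def Rothberger (X : Type) [TopologicalSpace X] : Prop :=
  ∀ 𝒰 : ℕ → Set (Set X), (∀ n, IsOpenCover X (𝒰 n)) →
    ∃ U : ℕ → Set X, (∀ n, U n ∈ 𝒰 n) ∧ IsOpenCover X (range U)

/-- `X` is `ω`-Rothberger, `S₁(Ω, Ω)`: for every sequence of `ω`-covers one can choose one member
of each such that the chosen sets form an `ω`-cover. -/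
def OmegaRothberger (X : Type) [TopologicalSpace X] : Prop :=
  ∀ 𝒰 : ℕ → Set (Set X), (∀ n, IsOmegaCover X (𝒰 n)) →
    ∃ U : ℕ → Set X, (∀ n, U n ∈ 𝒰 n) ∧ IsOmegaCover X (range U)

end Pool.Agent.T6.H71.Roth
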