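import Pool.Agent.T6.H71.Roth.Conc
import Pool.Agent.T6.H71.Roth.Defs

/-!
# A Rothberger space with a square which is not Lindelöf
-/

set_option autoImplicit false

namespace Pool.Agent.T6.H71.Roth

open Set Topology

/-! ### general facts -/

section general

variable {X Y : Type} [TopologicalSpace X] [TopologicalSpace Y]

theorem Rothberger.lindelof (h : Rothberger X) : LindelofSpace X := by
  refine ⟨isLindelof_of_countable_subcover fun {ι} U hU hc => ?_⟩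
  obtain ⟨V, hV, hV'⟩ := h (fun _ => range U) fun _ => ⟨by rintro _ ⟨i, rfl⟩; exact hU i, by
    rw [sUnion_range]
    exact univ_subset_iff.1 hc⟩
  choose i hi using hV
  refine ⟨range i, countable_range i, ?_⟩
  intro x _
  have hx : x ∈ ⋃₀ range V := by rw [hV'.2]; trivial
  obtain ⟨_, ⟨n, rfl⟩, hn⟩ := hx
  rw [← hi n] at hn
  exact mem_iUnion₂.2 ⟨i n, ⟨n, rfl⟩, hn⟩

/-- alternate between two sequences -/
def mix {α : Type} (A B : ℕ → α) (n : ℕ) : α := if n % 2 = 0 then A (n / 2) else B (n / 2)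

theorem mix_even {α : Type} (A B : ℕ → α) (n : ℕ) : mix A B (2 * n) = A n := by
  unfold mix
  rw [if_pos (by omega), show 2 * n / 2 = n by omega]

theorem mix_odd {α : Type} (A B : ℕ → α) (n : ℕ) : mix A B (2 * n + 1) = B n := by
  unfold mix
  rw [if_neg (by omega), show (2 * n + 1) / 2 = n by omega]

theorem Rothberger.sum (hX : Rothberger X) (hY : Rothberger Y) : Rothberger (X ⊕ Y) := by
  intro 𝒰 h𝒰
  obtain ⟨A, hA, hA'⟩ := hX (fun n => (Sum.inl ⁻¹' ·) '' 𝒰 (2 * n)) fun n => by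
    refine ⟨?_, eq_univ_of_forall fun x => ?_⟩
    · rintro _ ⟨U, hU, rfl⟩
      exact ((h𝒰 _).1 U hU).preimage continuous_inl
    · have hx : (Sum.inl x : X ⊕ Y) ∈ ⋃₀ 𝒰 (2 * n) := by rw [(h𝒰 _).2]; trivial
      obtain ⟨U, hU, hxU⟩ := hx
      exact ⟨_, ⟨U, hU, rfl⟩, hxU⟩
  obtain ⟨B, hB, hB'⟩ := hY (fun n => (Sum.inr ⁻¹' ·) '' 𝒰 (2 * n + 1)) fun n => by
    refine ⟨?_, eq_univ_of_forall fun x => ?_⟩
    · rintro _ ⟨U, hU, rfl⟩
      exact ((h𝒰 _).1 U hU).preimage continuous_inr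
    · have hx : (Sum.inr x : X ⊕ Y) ∈ ⋃₀ 𝒰 (2 * n + 1) := by rw [(h𝒰 _).2]; trivial
      obtain ⟨U, hU, hxU⟩ := hx
      exact ⟨_, ⟨U, hU, rfl⟩, hxU⟩
  choose A₁ hA₁ hA₂ using hA
  choose B₁ hB₁ hB₂ using hB
  have hmem : ∀ n, mix A₁ B₁ n ∈ 𝒰 n := by
    intro n
    rcases Nat.even_or_odd' n with ⟨k, rfl | rfl⟩
    · rw [mix_even]
      exact hA₁ k
    · rw [mix_odd]
      exact hB₁ k
  refine ⟨mix A₁ B₁, hmem, ?_, ?_⟩
  · rintro _ ⟨n, rfl⟩
    exact (h𝒰 n).1 _ (hmem n)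
  · refine eq_univ_of_forall fun z => ?_
    rcases z with x | y
    · have hx : x ∈ ⋃₀ range A := by rw [hA'.2]; trivial
      obtain ⟨_, ⟨n, rfl⟩, hn⟩ := hx
      rw [← hA₂ n] at hn
      refine ⟨_, ⟨2 * n, rfl⟩, ?_⟩
      rw [mix_even]
      exact hn
    · have hy : y ∈ ⋃₀ range B := by rw [hB'.2]; trivial
      obtain ⟨_, ⟨n, rfl⟩, hn⟩ := hy
      rw [← hB₂ n] at hn
      refine ⟨_, ⟨2 * n + 1, rfl⟩, ?_⟩
      rw [mix_odd]
      exact hn

/-- the square of an `ω`-Rothberger space is Lindelöf -/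
theorem OmegaRothberger.lindelof_sq (h : OmegaRothberger X) : LindelofSpace (X × X) := by
  refine ⟨isLindelof_of_countable_subcover fun {ι} W hW hc => ?_⟩
  let 𝒰 : Set (Set X) := {U | IsOpen U ∧ ∃ t : Set ι, t.Finite ∧ U ×ˢ U ⊆ ⋃ i ∈ t, W i}
  by_cases huniv : univ ∈ 𝒰
  · obtain ⟨-, t, ht, ht'⟩ := huniv
    exact ⟨t, ht.countable, by rwa [univ_prod_univ] at ht'⟩
  have hfin : ∀ F : Set X, F.Finite → ∃ U ∈ 𝒰, F ⊆ U := by
    intro F hF
    have hFF : IsCompact (F ×ˢ F) := (hF.prod hF).isCompact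
    obtain ⟨t, ht⟩ := hFF.elim_finite_subcover W hW (fun z _ => hc trivial)
    obtain ⟨u, v, hu, hv, hFu, hFv, huv⟩ := generalized_tube_lemma hF.isCompact hF.isCompact
      (isOpen_biUnion fun i (_ : i ∈ t) => hW i) ht
    refine ⟨u ∩ v, ⟨hu.inter hv, (t : Set ι), t.finite_toSet, ?_⟩, subset_inter hFu hFv⟩
    exact (prod_mono inter_subset_left inter_subset_right).trans huv
  have hcov : IsOmegaCover X 𝒰 := by
    refine ⟨⟨fun U hU => hU.1, eq_univ_of_forall fun x => ?_⟩, huniv, hfin⟩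
    obtain ⟨U, hU, hxU⟩ := hfin {x} (finite_singleton x)
    exact ⟨U, hU, hxU rfl⟩
  obtain ⟨U, hU, hU'⟩ := h (fun _ => 𝒰) fun _ => hcov
  choose _ t ht ht' using hU
  refine ⟨⋃ n, t n, countable_iUnion fun n => (ht n).countable, ?_⟩
  rintro ⟨x, y⟩ _
  obtain ⟨_, ⟨n, rfl⟩, hn⟩ := hU'.2.2 {x, y} (by simp)
  have h1 : (x, y) ∈ U n ×ˢ U n := ⟨hn (by simp), hn (by simp)⟩
  obtain ⟨i, hi, hxi⟩ := mem_iUnion₂.1 (ht' n h1)
  exact mem_iUnion₂.2 ⟨i, mem_iUnion.2 ⟨n, hi⟩, hxi⟩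

end general

/-! ### the half-open topology -/

section line

variable {W : Type} [LinearOrder W] [OrderBot W] [WellFoundedLT W] [Om W]
variable {L B : Type} [LinearOrder L] [LinearOrder B]

theorem LexLine.rothberger {f : Up L → W → B} (h : LexLine f) [Nonempty (Up L)] :
    Rothberger (Up L) := by
  intro 𝒰 h𝒰
  choose δ hδ using fun n => h.uniform (𝒰 n) (h𝒰 n).1 (h𝒰 n).2
  obtain ⟨b, hb⟩ := exists_bound δ
  obtain ⟨S, hS, hS'⟩ := h.cnt b
  obtain ⟨s₀, hs₀, -⟩ := hS' (Classical.arbitrary _)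
  obtain ⟨s, hs⟩ := hS.exists_eq_range ⟨s₀, hs₀⟩
  choose U hU hU' using fun n => hδ n (s n)
  refine ⟨U, hU, ?_, eq_univ_of_forall fun x => ?_⟩
  · rintro _ ⟨n, rfl⟩
    exact (h𝒰 n).1 _ (hU n)
  · obtain ⟨_, hsS, hx⟩ := hS' x
    rw [hs] at hsS
    obtain ⟨n, rfl⟩ := hsS
    exact ⟨U n, ⟨n, rfl⟩, hU' n x (hx.mono (hb n).le)⟩

theorem isClosed_Ici' (a : Up L) : IsClosed (Ici a) := by
  rw [← isOpen_compl_iff, compl_Ici]
  exact isOpen_Iio' a

theorem isClosed_Iio' (a : Up L) : IsClosed (Iio a) := by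
  rw [← isOpen_compl_iff, compl_Iio]
  exact isOpen_Ici' a

instance : T2Space (Up L) := by
  refine ⟨fun x y hxy => ?_⟩
  rcases lt_or_gt_of_ne hxy with h | h
  · exact ⟨Iio y, Ici y, isOpen_Iio' y, isOpen_Ici' y, h, le_refl y,
      disjoint_left.2 fun z hz hz' => absurd hz (not_lt.2 hz')⟩
  · exact ⟨Ici x, Iio x, isOpen_Ici' x, isOpen_Iio' x, le_refl x, h,
      disjoint_left.2 fun z hz hz' => absurd hz' (not_lt.2 hz)⟩

instance : RegularSpace (Up L) := by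
  refine .of_exists_mem_nhds_isClosed_subset fun x s hs => ?_
  obtain ⟨U, hUs, hU, hx⟩ := mem_nhds_iff.1 hs
  rcases exists_Ico hU hx with h | ⟨b, hb, h⟩
  · exact ⟨Ici x, (isOpen_Ici' x).mem_nhds (le_refl x), isClosed_Ici' x,
      fun y hy => hUs (h y hy)⟩
  · exact ⟨Ici x ∩ Iio b, ((isOpen_Ici' x).inter (isOpen_Iio' b)).mem_nhds ⟨le_refl x, hb⟩,
      (isClosed_Ici' x).inter (isClosed_Iio' b), fun y hy => hUs (h y hy.1 hy.2)⟩

theorem LexLine.firstCountable {f : Up L → W → B} (h : LexLine f) :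
    FirstCountableTopology (Up L) := by
  refine ⟨fun x => ?_⟩
  obtain ⟨δ, hδ⟩ := h.single x
  obtain ⟨S, hS, hS'⟩ := h.cnt δ
  choose m hm hm' using h.bot δ
  let C : Set (Set (Up L)) := {V | V ∈ 𝓝 x ∧ (V = Ici x ∨ ∃ s ∈ S, V = Ici x ∩ Iio (m s))}
  have hC : C.Countable := by
    refine (((hS.image fun s => Ici x ∩ Iio (m s)).insert (Ici x))).mono ?_
    rintro V ⟨-, rfl | ⟨s, hs, rfl⟩⟩
    · exact Or.inl rfl
    · exact Or.inr ⟨s, hs, rfl⟩
  refine Filter.HasCountableBasis.isCountablyGenerated (p := fun V => V ∈ C) (s := id)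
    ⟨⟨fun t => ⟨fun ht => ?_, ?_⟩⟩, hC⟩
  · obtain ⟨U, hUt, hU, hxU⟩ := mem_nhds_iff.1 ht
    rcases exists_Ico hU hxU with h1 | ⟨b, hb, h1⟩
    · exact ⟨Ici x, ⟨(isOpen_Ici' x).mem_nhds (le_refl x), Or.inl rfl⟩, fun y hy => hUt (h1 y hy)⟩
    · obtain ⟨s, hs, hsb⟩ := hS' b
      have h2 : m s ≤ b := hm' s b hsb
      have h3 : x < m s := by
        by_contra hcon
        have h4 : Agr f δ (m s) b := (hm s).symm.trans hsb
        have h5 : Agr f δ x b := (h.convex h4 (not_lt.1 hcon) hb.le).symm.trans h4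
        exact hb.ne' (hδ b h5)
      refine ⟨Ici x ∩ Iio (m s), ⟨((isOpen_Ici' x).inter (isOpen_Iio' _)).mem_nhds
        ⟨le_refl x, h3⟩, Or.inr ⟨s, hs, rfl⟩⟩, fun y hy => hUt (h1 y hy.1 (lt_of_lt_of_le hy.2 h2))⟩
  · rintro ⟨V, hV, hVt⟩
    exact Filter.mem_of_superset hV.1 hVt

/-- the product of the two half-open topologies contains a closed copy of the discrete space -/
theorem not_lindelof_prod (hL : ¬ (Set.univ : Set L).Countable) :
    ¬ LindelofSpace (Up L × Up Lᵒᵈ) := by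
  intro hlin
  let D : Set (Up L × Up Lᵒᵈ) := {p | (OrderDual.ofDual (p.2 : Lᵒᵈ) : L) = (p.1 : L)}
  let O : L → Set (Up L × Up Lᵒᵈ) := fun x =>
    Ici (show Up L from x) ×ˢ Ici (show Up Lᵒᵈ from OrderDual.toDual x)
  have hO : ∀ x, IsOpen (O x) := fun x => (isOpen_Ici' _).prod (isOpen_Ici' _)
  have hD : IsOpen Dᶜ := by
    rw [isOpen_iff_forall_mem_open]
    rintro ⟨x, y⟩ hxy
    have hne : (OrderDual.ofDual (y : Lᵒᵈ) : L) ≠ (x : L) := hxy
    rcases lt_or_gt_of_ne hne with h | h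
    · -- `y < x`
      refine ⟨Ici x ×ˢ Ici y, ?_, (isOpen_Ici' x).prod (isOpen_Ici' y), ⟨le_refl x, le_refl y⟩⟩
      rintro ⟨u, v⟩ ⟨hu, hv⟩ huv
      have h1 : (x : L) ≤ (u : L) := hu
      have h2 : (OrderDual.ofDual (v : Lᵒᵈ) : L) ≤ OrderDual.ofDual (y : Lᵒᵈ) := hv
      have h3 : (OrderDual.ofDual (v : Lᵒᵈ) : L) = (u : L) := huv
      rw [h3] at h2
      exact absurd (h1.trans h2) (not_le.2 h)
    · -- `x < y`
      by_cases hc : ∃ c : L, (x : L) < c ∧ c < OrderDual.ofDual (y : Lᵒᵈ)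
      · obtain ⟨c, hc1, hc2⟩ := hc
        refine ⟨Iio (show Up L from c) ×ˢ Iio (show Up Lᵒᵈ from OrderDual.toDual c), ?_,
          (isOpen_Iio' _).prod (isOpen_Iio' _), ⟨hc1, hc2⟩⟩
        rintro ⟨u, v⟩ ⟨hu, hv⟩ huv
        have h1 : (u : L) < c := hu
        have h2 : c < (OrderDual.ofDual (v : Lᵒᵈ) : L) := hv
        have h3 : (OrderDual.ofDual (v : Lᵒᵈ) : L) = (u : L) := huv
        rw [h3] at h2
        exact absurd (h1.trans h2) (lt_irrefl _)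
      · push Not at hc
        refine ⟨Iio (show Up L from OrderDual.ofDual (y : Lᵒᵈ)) ×ˢ
          Iio (show Up Lᵒᵈ from OrderDual.toDual (x : L)), ?_,
          (isOpen_Iio' _).prod (isOpen_Iio' _), ⟨h, h⟩⟩
        rintro ⟨u, v⟩ ⟨hu, hv⟩ huv
        have h1 : (u : L) < OrderDual.ofDual (y : Lᵒᵈ) := hu
        have h2 : (x : L) < (OrderDual.ofDual (v : Lᵒᵈ) : L) := hv
        have h3 : (OrderDual.ofDual (v : Lᵒᵈ) : L) = (u : L) := huv
        rw [h3] at h2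
        exact absurd h1 (not_lt.2 (hc _ h2))
  obtain ⟨r, hr, hr'⟩ := hlin.isLindelof_univ.elim_countable_subcover
    (fun i : Option L => i.elim Dᶜ O) (by
      rintro (_ | x)
      · exact hD
      · exact hO x) (by
      rintro ⟨u, v⟩ -
      by_cases h : (u, v) ∈ D
      · refine mem_iUnion.2 ⟨some (u : L), ?_⟩
        have h3 : (OrderDual.ofDual (v : Lᵒᵈ) : L) = (u : L) := h
        exact ⟨le_refl u, h3.le⟩
      · exact mem_iUnion.2 ⟨none, h⟩)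
  apply hL
  refine (hr.preimage (f := (some : L → Option L)) (Option.some_injective L)).mono ?_
  intro x _
  have hx : ((show Up L from x), (show Up Lᵒᵈ from OrderDual.toDual x)) ∈
      (univ : Set (Up L × Up Lᵒᵈ)) := trivial
  obtain ⟨i, hi, hxi⟩ := mem_iUnion₂.1 (hr' hx)
  rcases i with _ | y
  · exact absurd rfl hxi
  · have h1 : y ≤ x := hxi.1
    have h2 : x ≤ y := hxi.2
    have h3 : x = y := le_antisymm h2 h1
    rw [← h3] at hi
    exact hi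

end line

end Pool.Agent.T6.H71.Roth
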