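import Pool.Agent.T6.H71.Roth.Om

/-!
# Lexicographic lines without branches: the half-open topology
-/

set_option autoImplicit false

namespace Pool.Agent.T6.H71.Roth

open Set Topology

variable {W : Type} [LinearOrder W] [OrderBot W] [WellFoundedLT W] [Om W]
variable {L B : Type} [LinearOrder L] [LinearOrder B]

/-- same restriction to the initial segment below `δ` -/
def Agr (f : L → W → B) (δ : W) (x y : L) : Prop := ∀ η, η < δ → f x η = f y η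

/-- `f` represents the linear order `L` by sequences of length `ω₁` which are ordered
lexicographically; for each `δ < ω₁` there are only countably many restrictions to `δ`; the points
with the same restriction have a largest and a smallest element; each point is isolated by a
restriction; and there is no branch. -/
structure LexLine (f : L → W → B) : Prop where
  lex : ∀ x y, x < y ↔ ∃ ξ, (∀ η, η < ξ → f x η = f y η) ∧ f x ξ < f y ξ
  cnt : ∀ δ : W, ∃ S : Set L, S.Countable ∧ ∀ x, ∃ s ∈ S, Agr f δ s x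
  top : ∀ δ x, ∃ p, Agr f δ x p ∧ ∀ y, Agr f δ x y → y ≤ p
  bot : ∀ δ x, ∃ p, Agr f δ x p ∧ ∀ y, Agr f δ x y → p ≤ y
  single : ∀ x, ∃ δ, ∀ y, Agr f δ x y → y = x
  nobranch : ∀ F : W → B, ∃ δ, ∀ x, (∀ η, η < δ → f x η = F η) → ∀ y, Agr f δ x y → y = x

variable {f : L → W → B}

theorem Agr.symm {δ : W} {x y : L} (h : Agr f δ x y) : Agr f δ y x := fun η hη => (h η hη).symm

theorem Agr.trans {δ : W} {x y z : L} (h : Agr f δ x y) (h' : Agr f δ y z) : Agr f δ x z :=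
  fun η hη => (h η hη).trans (h' η hη)

theorem Agr.mono {δ δ' : W} {x y : L} (h : Agr f δ x y) (h' : δ' ≤ δ) : Agr f δ' x y :=
  fun η hη => h η (hη.trans_le h')

/-- the dual line -/
theorem LexLine.dual (h : LexLine f) :
    LexLine (L := Lᵒᵈ) (B := Bᵒᵈ) (fun x η => OrderDual.toDual (f (OrderDual.ofDual x) η)) where
  lex x y := by
    have h1 : x < y ↔ OrderDual.ofDual y < OrderDual.ofDual x := Iff.rfl
    rw [h1, h.lex]
    constructor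
    · rintro ⟨ξ, h2, h3⟩
      exact ⟨ξ, fun η hη => congrArg _ (h2 η hη).symm, h3⟩
    · rintro ⟨ξ, h2, h3⟩
      exact ⟨ξ, fun η hη => (OrderDual.toDual_inj.1 (h2 η hη)).symm, h3⟩
  cnt := h.cnt
  top := h.bot
  bot := h.top
  single := h.single
  nobranch := h.nobranch

theorem LexLine.convex (h : LexLine f) {δ : W} {x y z : L} (hxz : Agr f δ x z) (h1 : x ≤ y)
    (h2 : y ≤ z) : Agr f δ x y := by
  rcases h1.eq_or_lt with rfl | h1
  · exact fun _ _ => rfl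
  · obtain ⟨ξ, h3, h4⟩ := (h.lex _ _).1 h1
    by_cases hξ : ξ < δ
    · exfalso
      refine absurd h2 (not_le.2 ((h.lex _ _).2 ⟨ξ, fun η hη => ?_, ?_⟩))
      · rw [← hxz η (hη.trans hξ), h3 η hη]
      · rw [← hxz ξ hξ]
        exact h4
    · exact fun η hη => h3 η (hη.trans_le (not_lt.1 hξ))

/-- two points which do not agree below `δ`: the same order relation for all the points of their
classes -/
theorem LexLine.lt_of_not_agr (h : LexLine f) {δ : W} {x y x' y' : L} (hx : Agr f δ x x')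
    (hy : Agr f δ y y') (hlt : x < y) (hn : ¬ Agr f δ x y) : x' < y' := by
  obtain ⟨ξ, h3, h4⟩ := (h.lex _ _).1 hlt
  by_cases hξ : ξ < δ
  · refine (h.lex _ _).2 ⟨ξ, fun η hη => ?_, ?_⟩
    · rw [← hx η (hη.trans hξ), ← hy η (hη.trans hξ), h3 η hη]
    · rw [← hx ξ hξ, ← hy ξ hξ]
      exact h4
  · exact absurd (fun η hη => h3 η (hη.trans_le (not_lt.1 hξ))) hn

/-- Monotone sequences of length `ω₁` have a limit sequence. -/
theorem LexLine.limit (h : LexLine f) (D : Set W) (hD : ∀ b, ∃ δ ∈ D, b ≤ δ) (p : W → L)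
    (hp : ∀ δ ∈ D, ∀ δ' ∈ D, δ < δ' → p δ' ≤ p δ) :
    ∃ F : W → B, ∀ η, ∃ β ∈ D, ∀ δ ∈ D, β ≤ δ → ∀ ζ, ζ < η → f (p δ) ζ = F ζ := by
  classical
  have hp' : ∀ δ ∈ D, ∀ δ' ∈ D, δ ≤ δ' → p δ' ≤ p δ := by
    intro δ hδ δ' hδ' hle
    rcases hle.eq_or_lt with rfl | hlt
    · exact le_rfl
    · exact hp δ hδ δ' hδ' hlt
  have key : ∀ η, ∃ β ∈ D, ∀ δ ∈ D, β ≤ δ → Agr f η (p β) (p δ) := by
    intro η
    obtain ⟨S, hS, hS'⟩ := h.cnt η
    have h1 : ∀ s : L, ∃ b : W, (∀ δ ∈ D, Agr f η s (p δ) → δ < b) ∨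
        (∀ c, ∃ δ ∈ D, c ≤ δ ∧ Agr f η s (p δ)) := by
      intro s
      by_cases hs : ∃ b : W, ∀ δ ∈ D, Agr f η s (p δ) → δ < b
      · obtain ⟨b, hb⟩ := hs
        exact ⟨b, Or.inl hb⟩
      · refine ⟨⊥, Or.inr fun c => ?_⟩
        push Not at hs
        obtain ⟨δ, hδ, h2, h3⟩ := hs c
        exact ⟨δ, hδ, h3, h2⟩
    choose b hb using h1
    obtain ⟨c, hc⟩ := Om.bdd (b '' S) (hS.image b)
    obtain ⟨β, hβ, hcβ⟩ := hD c
    refine ⟨β, hβ, fun δ hδ hle => ?_⟩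
    obtain ⟨s, hsS, hs⟩ := hS' (p β)
    rcases hb s with h2 | h2
    · exact absurd (h2 β hβ hs) (not_lt.2 ((hc _ ⟨s, hsS, rfl⟩).le.trans hcβ))
    · obtain ⟨δ', hδ', h3, h4⟩ := h2 δ
      have h5 : Agr f η (p β) (p δ') := hs.symm.trans h4
      have h6 : Agr f η (p δ') (p δ) :=
        h.convex h5.symm (hp' δ hδ δ' hδ' h3) (hp' β hβ δ hδ hle)
      exact h5.trans h6
  choose β hβ hβ' using key
  have hsucc : ∀ ζ : W, ∃ ζ', ζ < ζ' := exists_gt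
  choose sc hsc using hsucc
  refine ⟨fun ζ => f (p (β (sc ζ))) ζ, fun η => ⟨β η, hβ η, fun δ hδ hle ζ hζ => ?_⟩⟩
  obtain ⟨δ', hδ', h1⟩ := hD (max δ (β (sc ζ)))
  have h2 := hβ' η δ hδ hle ζ hζ
  have h3 := hβ' η δ' hδ' (hle.trans ((le_max_left _ _).trans h1)) ζ hζ
  have h4 := hβ' (sc ζ) δ' hδ' ((le_max_right _ _).trans h1) ζ (hsc ζ)
  rw [← h2, h3, ← h4]

/-- `L` with the topology generated by the rays `[a, →)` and `(←, b)` -/
def Up (L : Type) : Type := L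

instance (L : Type) [LinearOrder L] : LinearOrder (Up L) := inferInstanceAs (LinearOrder L)

instance (L : Type) [LinearOrder L] : TopologicalSpace (Up L) :=
  TopologicalSpace.generateFrom ({s | ∃ a, s = Ici a} ∪ {s | ∃ b, s = Iio b})

theorem isOpen_Ici' (a : Up L) : IsOpen (Ici a) :=
  TopologicalSpace.isOpen_generateFrom_of_mem (Or.inl ⟨a, rfl⟩)

theorem isOpen_Iio' (a : Up L) : IsOpen (Iio a) :=
  TopologicalSpace.isOpen_generateFrom_of_mem (Or.inr ⟨a, rfl⟩)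

/-- small neighbourhoods -/
theorem exists_Ico {U : Set (Up L)} (hU : IsOpen U) {x : Up L} (hx : x ∈ U) :
    (∀ y, x ≤ y → y ∈ U) ∨ ∃ b, x < b ∧ ∀ y, x ≤ y → y < b → y ∈ U := by
  induction hU with
  | basic s hs =>
    rcases hs with ⟨a, rfl⟩ | ⟨b, rfl⟩
    · exact Or.inl fun y hy => le_trans hx hy
    · exact Or.inr ⟨b, hx, fun y _ h => h⟩
  | univ => exact Or.inl fun _ _ => trivial
  | inter s t _ _ hs ht =>
    rcases hs hx.1 with h1 | ⟨b, hb, h1⟩ <;> rcases ht hx.2 with h2 | ⟨c, hc, h2⟩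
    · exact Or.inl fun y hy => ⟨h1 y hy, h2 y hy⟩
    · exact Or.inr ⟨c, hc, fun y hy hy' => ⟨h1 y hy, h2 y hy hy'⟩⟩
    · exact Or.inr ⟨b, hb, fun y hy hy' => ⟨h1 y hy hy', h2 y hy⟩⟩
    · refine Or.inr ⟨min b c, lt_min hb hc, fun y hy hy' => ⟨h1 y hy ?_, h2 y hy ?_⟩⟩
      · exact hy'.trans_le (min_le_left _ _)
      · exact hy'.trans_le (min_le_right _ _)
  | sUnion S _ ih =>
    obtain ⟨s, hs, hxs⟩ := hx
    rcases ih s hs hxs with h1 | ⟨b, hb, h1⟩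
    · exact Or.inl fun y hy => ⟨s, hs, h1 y hy⟩
    · exact Or.inr ⟨b, hb, fun y hy hy' => ⟨s, hs, h1 y hy hy'⟩⟩

/-- The main lemma: for each open cover there is `δ < ω₁` such that all the points with the same
restriction to `δ` are contained in one element of the cover. -/
theorem LexLine.uniform {f : Up L → W → B} (h : LexLine f) (𝒰 : Set (Set (Up L)))
    (ho : ∀ U ∈ 𝒰, IsOpen U) (hc : ⋃₀ 𝒰 = univ) :
    ∃ δ : W, ∀ x, ∃ U ∈ 𝒰, ∀ y, Agr f δ x y → y ∈ U := by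
  classical
  by_contra hcon
  push Not at hcon
  have h1 : ∀ δ : W, ∃ p : Up L, (∀ U ∈ 𝒰, ∃ y, Agr f δ p y ∧ y ∉ U) ∧
      ∀ y, Agr f δ p y → y ≤ p := by
    intro δ
    obtain ⟨x, hx⟩ := hcon δ
    obtain ⟨p, hp1, hp2⟩ := h.top δ x
    refine ⟨p, fun U hU => ?_, fun y hy => hp2 y (hp1.trans hy)⟩
    obtain ⟨y, hy1, hy2⟩ := hx U hU
    exact ⟨y, hp1.symm.trans hy1, hy2⟩
  choose p hbad hmax using h1
  have h2 : ∀ x : Up L, ∃ U ∈ 𝒰, x ∈ U := fun x => by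
    have : x ∈ ⋃₀ 𝒰 := by rw [hc]; trivial
    exact this
  have h3 : ∀ δ : W, ∃ ξ : W, ∃ U ∈ 𝒰, δ ≠ ⊥ → ξ < δ ∧
      ∀ y, (∀ η ≤ ξ, f y η = f (p δ) η) → p δ < y → y ∈ U := by
    intro δ
    obtain ⟨U, hU, hpU⟩ := h2 (p δ)
    rcases exists_Ico (ho U hU) hpU with h4 | ⟨b, hb, h4⟩
    · exact ⟨⊥, U, hU, fun hδ => ⟨bot_lt_iff_ne_bot.2 hδ, fun y _ hy => h4 y hy.le⟩⟩
    · obtain ⟨ξ, h5, h6⟩ := (h.lex _ _).1 hb
      refine ⟨ξ, U, hU, fun hδ => ⟨?_, fun y hy hlt => h4 y hlt.le ?_⟩⟩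
      · by_contra hξ
        exact absurd (hmax δ b fun η hη => h5 η (hη.trans_le (not_lt.1 hξ))) (not_le.2 hb)
      · refine (h.lex _ _).2 ⟨ξ, fun η hη => ?_, ?_⟩
        · rw [hy η hη.le, h5 η hη]
        · rw [hy ξ le_rfl]
          exact h6
  choose ξ V hV hξ using h3
  have hξ1 : ∀ δ : W, δ ≠ ⊥ → ξ δ < δ := fun δ hδ => (hξ δ hδ).1
  have hξ2 : ∀ δ : W, δ ≠ ⊥ → ∀ y, (∀ η ≤ ξ δ, f y η = f (p δ) η) → p δ < y → y ∈ V δ :=
    fun δ hδ => (hξ δ hδ).2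
  -- pressing down
  have h4 : ∃ (ζ : W) (s : Up L), ∀ b : W, ∃ δ : W, b ≤ δ ∧ δ ≠ ⊥ ∧ ξ δ = ζ ∧
      ∀ η ≤ ζ, f (p δ) η = f s η := by
    by_contra hcon
    push Not at hcon
    choose b hb using hcon
    have h5 : ∀ ζ : W, ∃ g : W, ∀ x : Up L, ∃ s : Up L, (∀ η ≤ ζ, f x η = f s η) ∧ b ζ s < g := by
      intro ζ
      obtain ⟨ζ', hζ'⟩ := exists_gt ζ
      obtain ⟨S, hS, hS'⟩ := h.cnt ζ'
      obtain ⟨g, hg⟩ := Om.bdd (b ζ '' S) (hS.image _)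
      refine ⟨g, fun x => ?_⟩
      obtain ⟨s, hs, hsx⟩ := hS' x
      exact ⟨s, fun η hη => (hsx η (hη.trans_lt hζ')).symm, hg _ ⟨s, hs, rfl⟩⟩
    choose g hg using h5
    obtain ⟨δ, hδ, hδ'⟩ := exists_closed g
    obtain ⟨s, hs1, hs2⟩ := hg (ξ δ) (p δ)
    obtain ⟨η, hη, hne⟩ := hb (ξ δ) s δ (hs2.le.trans (hδ' _ (hξ1 δ hδ)).le) hδ rfl
    exact hne (hs1 η hη)
  obtain ⟨ζ, s, hs⟩ := h4
  let D : Set W := {δ | δ ≠ ⊥ ∧ ξ δ = ζ ∧ ∀ η ≤ ζ, f (p δ) η = f s η}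
  have hD : ∀ b, ∃ δ ∈ D, b ≤ δ := fun b => by
    obtain ⟨δ, h5, h6⟩ := hs b
    exact ⟨δ, h6, h5⟩
  have hanti : ∀ δ ∈ D, ∀ δ' ∈ D, δ < δ' → p δ' ≤ p δ := by
    intro δ hδ δ' hδ' hlt
    by_contra hcon
    rw [not_le] at hcon
    -- all the points of the class of `p δ'` at the level `δ` are above `p δ`
    have hna : ¬ Agr f δ (p δ) (p δ') := fun hagr => absurd (hmax δ _ hagr) (not_le.2 hcon)
    obtain ⟨y, hy1, hy2⟩ := hbad δ' (V δ) (hV δ)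
    have hy3 : Agr f δ (p δ') y := hy1.mono hlt.le
    refine hy2 (hξ2 δ hδ.1 y (fun η hη => ?_) ?_)
    · rw [hδ.2.1] at hη
      have h5 : η < δ := hη.trans_lt (by rw [← hδ.2.1]; exact hξ1 δ hδ.1)
      rw [← hy3 η h5, hδ'.2.2 η hη, hδ.2.2 η hη]
    · exact h.lt_of_not_agr (fun _ _ => rfl) hy3 hcon hna
  obtain ⟨F, hF⟩ := h.limit D hD p hanti
  obtain ⟨δ₀, hδ₀⟩ := h.nobranch F
  obtain ⟨β, _, hβ⟩ := hF δ₀
  obtain ⟨δ, hδ, hle⟩ := hD (max β δ₀)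
  have h5 := hδ₀ (p δ) (hβ δ hδ ((le_max_left _ _).trans hle))
  obtain ⟨U, hU, hpU⟩ := h2 (p δ)
  obtain ⟨y, hy1, hy2⟩ := hbad δ U hU
  have h6 : y = p δ := h5 y (hy1.mono ((le_max_right _ _).trans hle))
  rw [h6] at hy2
  exact hy2 hpU

end Pool.Agent.T6.H71.Roth
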