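import Pool.Agent.T6.H71.Roth.Final

/-!
# The space
-/

set_option autoImplicit false

namespace Pool.Agent.T6.H71.Roth

open Set Topology Cardinal

theorem exists_W : ∃ (W : Type) (_ : LinearOrder W) (_ : OrderBot W) (_ : WellFoundedLT W),
    Om W ∧ #W = ℵ₁ := by
  let W := (ℵ₁ : Cardinal.{0}).ord.ToType
  have hW : #W = ℵ₁ := mk_ord_toType _
  have hne : Nonempty W := by
    rw [← mk_ne_zero_iff, hW]
    exact (aleph_pos 1).ne'
  let hbot : OrderBot W := WellFoundedLT.toOrderBot W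
  have hcI : ∀ b : W, (Set.Iio b).Countable := fun b =>
    (countable_iff_lt_aleph_one _).2 (mk_Iio_toType_ord_lt b)
  refine ⟨W, inferInstance, hbot, inferInstance, ⟨hcI, ?_⟩, hW⟩
  intro S hS
  by_contra hcon
  push Not at hcon
  have h1 : (Set.univ : Set W).Countable := by
    refine (hS.biUnion (t := fun x _ => Set.Iic x) fun x _ => ?_).mono ?_
    · rw [← Set.Iio_insert]
      exact (hcI x).insert x
    · intro b _
      obtain ⟨x, hx, hbx⟩ := hcon b
      exact Set.mem_iUnion₂.2 ⟨x, hx, hbx⟩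
  have h2 := (countable_iff_lt_aleph_one _).1 h1
  rw [mk_univ, hW] at h2
  exact lt_irrefl _ h2

variable {W : Type} [LinearOrder W] [OrderBot W] [WellFoundedLT W] [Om W]

/-- the point `e · α ⌢ ⊤` -/
theorem exists_len (α : W) : ∃ x : LL W, len x = α := by
  classical
  have h : IsPt (fun ξ => if ξ < α then ii (e ξ α) else if ξ = α then (⊤ : BB) else ⊥) α := by
    refine ⟨fun ξ hξ => ⟨e ξ α, by simp [hξ]⟩, by simp, fun ξ hξ => ?_, ?_⟩
    · simp [not_lt.2 hξ.le, hξ.ne']
    · convert Set.finite_empty (α := W)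
      ext ξ
      simp only [Set.mem_ofPred_eq, Set.mem_empty_iff_false, iff_false, not_and]
      intro h1 h2
      apply h2
      simp [h1]
  exact ⟨mkP _ α h, isPt_unique (pt _) h⟩

theorem not_countable_LL : ¬ (Set.univ : Set (LL W)).Countable := by
  intro h
  obtain ⟨b, hb⟩ := Om.bdd _ (h.image len)
  obtain ⟨x, hx⟩ := exists_len b
  exact lt_irrefl b (by
    have := hb (len x) ⟨x, trivial, rfl⟩
    rwa [hx] at this)

theorem mk_LL (hW : #W = ℵ₁) : #(LL W) = ℵ₁ := by
  apply le_antisymm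
  · have h1 : ∀ α : W, {x : LL W | len x = α}.Countable := by
      intro α
      obtain ⟨δ, hδ⟩ := exists_gt α
      obtain ⟨S, hS, hS'⟩ := (lexLine (W := W)).cnt δ
      refine hS.mono ?_
      intro x hx
      obtain ⟨s, hs, hsx⟩ := hS' x
      have hx' : len x < δ := by rw [show len x = α from hx]; exact hδ
      have := eq_of_agr hx' hsx.symm
      rw [← this]
      exact hs
    have h2 : ∀ α : W, ∃ g : LL W → ℕ, Set.InjOn g {x : LL W | len x = α} := fun α =>
      Set.countable_iff_exists_injOn.1 (h1 α)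
    choose g hg using h2
    have hinj : Function.Injective (fun x : LL W => ((len x, g (len x) x) : W × ℕ)) := by
      intro x y hxy
      have h3 : len x = len y := congrArg Prod.fst hxy
      have h4 : g (len x) x = g (len y) y := congrArg Prod.snd hxy
      rw [← h3] at h4
      exact hg (len x) rfl h3.symm h4
    have h5 := mk_le_of_injective hinj
    rw [mk_prod, lift_id, lift_id, hW, mk_nat] at h5
    rwa [mul_eq_left (aleph0_le_aleph 1) (aleph0_le_aleph 1) aleph0_ne_zero] at h5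
  · rw [aleph_one_le_iff]
    by_contra hcon
    have := mk_le_aleph0_iff.1 (not_lt.1 hcon)
    exact not_countable_LL (W := W) (Set.countable_univ)

omit [OrderBot W] [WellFoundedLT W] [Om W] in
theorem LexLine.toUp {L B : Type} [LinearOrder L] [LinearOrder B] {f : L → W → B}
    (h : LexLine f) : LexLine (L := Up L) (fun x => f x) := h

theorem exists_space : ∃ (X : Type) (_ : TopologicalSpace X), T4Space X ∧
    FirstCountableTopology X ∧ #X = ℵ₁ ∧ Rothberger X ∧ ¬ OmegaRothberger X ∧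
    ¬ LindelofSpace (X × X) := by
  obtain ⟨W, i1, i2, i3, i4, hW⟩ := exists_W
  have hne : Nonempty (LL W) := ⟨(exists_len (⊥ : W)).choose⟩
  have hne1 : Nonempty (Up (LL W)) := hne
  have hne2 : Nonempty (Up (LL W)ᵒᵈ) := hne
  have hl := (lexLine (W := W)).toUp
  have hd := (lexLine (W := W)).dual.toUp
  have hR : Rothberger (Up (LL W) ⊕ Up (LL W)ᵒᵈ) := hl.rothberger.sum hd.rothberger
  have hfc1 : FirstCountableTopology (Up (LL W)) := hl.firstCountable
  have hfc2 : FirstCountableTopology (Up (LL W)ᵒᵈ) := hd.firstCountable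
  have hfc : FirstCountableTopology (Up (LL W) ⊕ Up (LL W)ᵒᵈ) := by
    refine ⟨?_⟩
    rintro (x | x)
    · rw [nhds_inl]
      infer_instance
    · rw [nhds_inr]
      infer_instance
  have hlin : LindelofSpace (Up (LL W) ⊕ Up (LL W)ᵒᵈ) := hR.lindelof
  have hreg : RegularSpace (Up (LL W) ⊕ Up (LL W)ᵒᵈ) := by
    refine .of_exists_mem_nhds_isClosed_subset ?_
    rintro (x | x) s hs
    · rw [nhds_inl] at hs
      obtain ⟨t, ht, htc, hts⟩ := exists_mem_nhds_isClosed_subset (Filter.mem_map.1 hs)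
      refine ⟨Sum.inl '' t, ?_, IsClosedEmbedding.inl.isClosedMap t htc, ?_⟩
      · rw [nhds_inl]
        exact Filter.image_mem_map ht
      · rintro _ ⟨y, hy, rfl⟩
        exact hts hy
    · rw [nhds_inr] at hs
      obtain ⟨t, ht, htc, hts⟩ := exists_mem_nhds_isClosed_subset (Filter.mem_map.1 hs)
      refine ⟨Sum.inr '' t, ?_, IsClosedEmbedding.inr.isClosedMap t htc, ?_⟩
      · rw [nhds_inr]
        exact Filter.image_mem_map ht
      · rintro _ ⟨y, hy, rfl⟩
        exact hts hy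
  have hnl : ¬ LindelofSpace ((Up (LL W) ⊕ Up (LL W)ᵒᵈ) × (Up (LL W) ⊕ Up (LL W)ᵒᵈ)) := by
    intro h
    apply not_lindelof_prod (not_countable_LL (W := W))
    have hemb : IsClosedEmbedding (Prod.map (Sum.inl : Up (LL W) → Up (LL W) ⊕ Up (LL W)ᵒᵈ)
        (Sum.inr : Up (LL W)ᵒᵈ → Up (LL W) ⊕ Up (LL W)ᵒᵈ)) :=
      IsClosedEmbedding.inl.prodMap IsClosedEmbedding.inr
    exact hemb.LindelofSpace
  refine ⟨Up (LL W) ⊕ Up (LL W)ᵒᵈ, inferInstance, inferInstance, hfc, ?_, hR, ?_, hnl⟩
  · have h1 : #(Up (LL W)) = ℵ₁ := mk_LL hW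
    have h2 : #(Up (LL W)ᵒᵈ) = ℵ₁ := mk_LL hW
    rw [mk_sum, lift_id, lift_id, h1, h2]
    exact add_eq_self (aleph0_le_aleph 1)
  · intro h
    exact hnl h.lindelof_sq

end Pool.Agent.T6.H71.Roth
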