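import Mathlib

/-!
# Well-orders of type `ω₁` and a coherent sequence of finite-to-one functions

(The construction of `e` is the one of the function `ρ₁` in
`Pool.Agent.Results.MP_b9a716_gt.MooreLSpace`.)
-/

set_option autoImplicit false

namespace Pool.Agent.T6.H71.Roth

/-- a well-order of type `ω₁` -/
class Om (W : Type) [LinearOrder W] [OrderBot W] [WellFoundedLT W] : Prop where
  countable_Iio : ∀ b : W, (Set.Iio b).Countable
  bdd : ∀ S : Set W, S.Countable → ∃ b, ∀ x ∈ S, x < b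

variable {W : Type} [LinearOrder W] [OrderBot W] [WellFoundedLT W] [Om W]

/-- local well founded relation -/
local instance wfr : WellFoundedRelation W := ⟨(· < ·), wellFounded_lt⟩

theorem exists_lad : ∃ c : W → ℕ → W, (∀ b n, ⊥ < b → c b n < b) ∧ (∀ b, Monotone (c b)) ∧
    ∀ a b, a < b → ∃ n, a ≤ c b n := by
  have h : ∀ b : W, ∃ s : ℕ → W, (⊥ < b → ∀ n, s n < b) ∧ Monotone s ∧ ∀ a < b, ∃ n, a ≤ s n := by
    intro b
    by_cases hb : ⊥ < b
    · obtain ⟨s, hs⟩ := (Om.countable_Iio b).exists_eq_range ⟨⊥, hb⟩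
      refine ⟨fun n => partialSups s n, fun _ n => ?_, (partialSups s).monotone, ?_⟩
      · obtain ⟨i, -, hi⟩ := exists_partialSups_eq s n
        show partialSups s n < b
        rw [hi]
        have : s i ∈ Set.Iio b := by rw [hs]; exact ⟨i, rfl⟩
        exact this
      · intro a ha
        have : a ∈ Set.Iio b := ha
        rw [hs] at this
        obtain ⟨n, rfl⟩ := this
        exact ⟨n, le_partialSups s n⟩
    · refine ⟨fun _ => ⊥, fun h => absurd h hb, monotone_const, fun a ha => ?_⟩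
      exact absurd (bot_le.trans_lt ha) hb
  choose c hc using h
  exact ⟨c, fun b n hb => (hc b).1 hb n, fun b => (hc b).2.1, fun a b hab => (hc b).2.2 a hab⟩

/-- ladder -/
noncomputable def lad : W → ℕ → W := Classical.choose (exists_lad (W := W))

theorem lad_lt {b : W} (n : ℕ) (hb : ⊥ < b) : lad b n < b :=
  (Classical.choose_spec (exists_lad (W := W))).1 b n hb

theorem lad_mono (b : W) : Monotone (lad b) :=
  (Classical.choose_spec (exists_lad (W := W))).2.1 b

theorem lad_cof {a b : W} (h : a < b) : ∃ n, a ≤ lad b n :=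
  (Classical.choose_spec (exists_lad (W := W))).2.2 a b h

open Classical in
/-- index of the first ladder point above `a` -/
noncomputable def nn (b a : W) : ℕ := if h : ∃ n, a ≤ lad b n then Nat.find h else 0

theorem le_nn {a b : W} (h : a < b) : a ≤ lad b (nn b a) := by
  classical
  unfold nn
  rw [dif_pos (lad_cof h)]
  exact Nat.find_spec (lad_cof h)

theorem nn_le {a b : W} {n : ℕ} (h : a ≤ lad b n) : nn b a ≤ n := by
  classical
  unfold nn
  rw [dif_pos ⟨n, h⟩]
  exact Nat.find_min' _ h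

theorem nn_mono {a a' b : W} (h : a ≤ a') (hb : a' < b) : nn b a ≤ nn b a' :=
  nn_le (h.trans (le_nn hb))

/-- the function `ρ₁`; `e ξ β` -/
noncomputable def e (ξ β : W) : ℕ :=
  if h : ξ < β then max (nn β ξ) (e ξ (lad β (nn β ξ))) else 0
termination_by β
decreasing_by exact lad_lt _ (bot_le.trans_lt h)

theorem e_of_lt {ξ β : W} (h : ξ < β) : e ξ β = max (nn β ξ) (e ξ (lad β (nn β ξ))) := by
  rw [e, dif_pos h]

/-- finite-to-one -/
theorem E1 (k : ℕ) (β : W) : {ξ | ξ < β ∧ e ξ β ≤ k}.Finite := by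
  induction β using WellFoundedLT.induction with
  | _ β ih =>
    by_cases hβ : ⊥ < β
    · have h1 : ∀ n, {ξ | ξ ≤ lad β n ∧ e ξ (lad β n) ≤ k}.Finite := by
        intro n
        refine ((ih (lad β n) (lad_lt n hβ)).union (Set.finite_singleton (lad β n))).subset ?_
        rintro ξ ⟨h1, h2⟩
        rcases h1.lt_or_eq with h | h
        · exact Or.inl ⟨h, h2⟩
        · exact Or.inr h
      refine ((Set.finite_Iic k).biUnion (t := fun n => {ξ | ξ ≤ lad β n ∧ e ξ (lad β n) ≤ k})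
        fun n _ => h1 n).subset ?_
      rintro ξ ⟨h2, h3⟩
      rw [e_of_lt h2] at h3
      simp only [Set.mem_iUnion]
      exact ⟨nn β ξ, (le_max_left _ _).trans h3, le_nn h2, (le_max_right _ _).trans h3⟩
    · convert Set.finite_empty (α := W)
      ext ξ
      simp only [Set.mem_ofPred_eq, Set.mem_empty_iff_false, iff_false, not_and]
      intro h
      exact absurd (bot_le.trans_lt h) hβ

/-- coherence -/
theorem E2 (β : W) : ∀ α ≤ β, {ξ | ξ < α ∧ e ξ α ≠ e ξ β}.Finite := by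
  induction β using WellFoundedLT.induction with
  | _ β ih =>
    intro α hα
    rcases hα.lt_or_eq with hα | rfl
    swap
    · simp
    have hβ : ⊥ < β := bot_le.trans_lt hα
    -- for each n the comparison of `e · (lad β n)` with `e · α` below both
    have h1 : ∀ n, {ξ | ξ < α ∧ ξ < lad β n ∧ e ξ (lad β n) ≠ e ξ α}.Finite := by
      intro n
      rcases le_total (lad β n) α with h | h
      · refine (ih α hα (lad β n) h).subset ?_
        rintro ξ ⟨-, h2, h3⟩
        exact ⟨h2, h3⟩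
      · refine (ih (lad β n) (lad_lt n hβ) α h).subset ?_
        rintro ξ ⟨h2, -, h3⟩
        exact ⟨h2, h3.symm⟩
    have h2 : ∀ n, ({ξ | ξ < α ∧ ξ < lad β n ∧ e ξ (lad β n) ≠ e ξ α} ∪ {lad β n} ∪
        {ξ | ξ < lad β n ∧ e ξ (lad β n) ≤ n}).Finite := fun n =>
      ((h1 n).union (Set.finite_singleton _)).union (E1 n _)
    refine ((Set.finite_Iic (nn β α)).biUnion (t := fun n =>
      {ξ | ξ < α ∧ ξ < lad β n ∧ e ξ (lad β n) ≠ e ξ α} ∪ {lad β n} ∪
        {ξ | ξ < lad β n ∧ e ξ (lad β n) ≤ n}) fun n _ => h2 n).subset ?_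
    rintro ξ ⟨h3, h4⟩
    simp only [Set.mem_iUnion]
    have h5 : ξ < β := h3.trans hα
    refine ⟨nn β ξ, nn_mono h3.le hα, ?_⟩
    rcases (le_nn h5).lt_or_eq with h6 | h6
    swap
    · exact Or.inl (Or.inr h6)
    by_cases h7 : e ξ (lad β (nn β ξ)) ≤ nn β ξ
    · exact Or.inr ⟨h6, h7⟩
    · refine Or.inl (Or.inl ⟨h3, h6, ?_⟩)
      rw [e_of_lt h5, max_eq_right (not_le.1 h7).le] at h4
      exact fun h => h4 h.symm

theorem exists_gt (a : W) : ∃ b : W, a < b := by
  obtain ⟨b, hb⟩ := Om.bdd ({a} : Set W) (Set.countable_singleton a)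
  exact ⟨b, hb a rfl⟩

theorem exists_bound {ι : Type} [Countable ι] (f : ι → W) : ∃ b : W, ∀ i, f i < b := by
  obtain ⟨b, hb⟩ := Om.bdd (Set.range f) (Set.countable_range f)
  exact ⟨b, fun i => hb _ ⟨i, rfl⟩⟩

/-- there are closure points -/
theorem exists_closed (g : W → W) : ∃ δ : W, δ ≠ ⊥ ∧ ∀ ξ < δ, g ξ < δ := by
  have hs : ∀ a : W, ∃ b : W, a < b ∧ ∀ ξ ≤ a, g ξ < b := by
    intro a
    have hc : (Set.Iic a).Countable := by
      rw [← Set.Iio_insert]
      exact (Om.countable_Iio a).insert a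
    obtain ⟨b, hb⟩ := Om.bdd (insert a (g '' Set.Iic a)) ((hc.image g).insert a)
    exact ⟨b, hb a (Or.inl rfl), fun ξ hξ => hb _ (Or.inr ⟨ξ, hξ, rfl⟩)⟩
  choose s hs1 hs2 using hs
  let q : ℕ → W := fun n => s^[n] (s ⊥)
  have hq : ∀ n, q (n + 1) = s (q n) := fun n => Function.iterate_succ_apply' s n (s ⊥)
  obtain ⟨b, hb⟩ := exists_bound q
  have hne : {b : W | ∀ n, q n ≤ b}.Nonempty := ⟨b, fun n => (hb n).le⟩
  let δ := wellFounded_lt.min _ hne
  have hδ : ∀ n, q n ≤ δ := WellFounded.min_mem _ _ hne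
  have hδ2 : ∀ ξ < δ, ∃ n, ξ < q n := by
    intro ξ hξ
    by_contra hcon
    push Not at hcon
    exact WellFounded.not_lt_min wellFounded_lt {b : W | ∀ n, q n ≤ b} hcon hξ
  refine ⟨δ, ?_, fun ξ hξ => ?_⟩
  · have h1 : ⊥ < q 0 := hs1 ⊥
    exact (h1.trans_le (hδ 0)).ne'
  · obtain ⟨n, hn⟩ := hδ2 ξ hξ
    have := hs2 (q n) ξ hn.le
    rw [← hq] at this
    exact this.trans_le (hδ _)

end Pool.Agent.T6.H71.Roth
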